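import Pool.Agent.H984R4.NP.Clu
import Pool.Agent.H984R4.NP.Walk
import Pool.Agent.H984R3.Per.Pot
import Pool.Agent.H984R3.Per.Extent

/-!
The exploration path in a lattice rectangle visits every state between the cluster of the wired arc
and the dual cluster of the complementary arc.
-/

namespace H443B

open H974 Finset H342P H984P H984N

variable {D : Dm} {F : Finset Edg}

theorem z2 {a b : ZMod 2} (h : a + b = 0) : a = b := by
  revert a b; decide

theorem walk_inv (hD : D.Ok) (hF : F ⊆ D.edges) (σ : St) :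
    σ ∈ {τ | ∃ t, D.walk F t = τ} ↔ nxt (D.cfg F) σ ∈ {τ | ∃ t, D.walk F t = τ} := by
  constructor
  · rintro ⟨t, rfl⟩
    exact ⟨t + 1, clu_walk_succ D F t⟩
  · rintro ⟨t, ht⟩
    cases t with
    | succ t =>
      rw [clu_walk_succ] at ht
      exact ⟨t, (nxt_bij _).1 ht⟩
    | zero =>
      obtain ⟨P, hP, hP'⟩ := Walk_periodic hD hF
      obtain ⟨p, rfl⟩ : ∃ p', P = p' + 1 := ⟨P - 1, by omega⟩
      rw [clu_walk_succ] at hP'
      refine ⟨p, (nxt_bij (D.cfg F)).1 ?_⟩
      rw [hP', ← ht]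
      rfl

theorem not_cfg_out (hD : D.Ok) (hF : F ⊆ D.edges) {e : Edg}
    (he : ¬ (inR D.l D.r 0 D.h (src e) ∧ inR D.l D.r 0 D.h (tgt e))) : e ∉ D.cfg F :=
  fun h => he (clu_cfg_in hD hF h)

/-- The dual potential is constant on the outer faces. -/
theorem outer_const (hD : D.Ok) (hF : F ⊆ D.edges) {hf : Vtx → ZMod 2}
    (hE : ∀ e, e ∉ D.cfg F → hf (dsrc e) = hf (dtgt e)) {g : Vtx} (hg : g ∈ D.outer) :
    hf g = hf (D.t, D.h) := by
  obtain ⟨hl, hr, hh, h4, h5⟩ := id hD
  have bot : ∀ n : ℕ, (n : ℤ) ≤ D.r → hf ((n : ℤ), -1) = hf (0, -1) := by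
    intro n
    induction n with
    | zero => intro _; rfl
    | succ n ih =>
      intro hn
      push_cast at hn
      have h := hE ((n : ℤ) + 1, -1, false) (not_cfg_out hD hF (by
        simp only [src_mk, tgt_false, inR]; omega))
      rw [dsrc_false, dtgt_mk] at h
      rw [← ih (by omega)]
      push_cast
      rw [← h]
      congr 2
      omega
  have rgt : ∀ n : ℕ, -1 + (n : ℤ) ≤ D.h → hf (D.r, -1 + (n : ℤ)) = hf (D.r, -1) := by
    intro n
    induction n with
    | zero => intro _; simp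
    | succ n ih =>
      intro hn
      push_cast at hn
      have h := hE (D.r, -1 + ((n : ℤ) + 1), true) (not_cfg_out hD hF (by
        simp only [src_mk, tgt_true, inR]; omega))
      rw [dsrc_true, dtgt_mk] at h
      rw [← ih (by omega)]
      push_cast
      rw [← h]
      congr 2
      omega
  have top : ∀ n : ℕ, D.t + (n : ℤ) ≤ D.r → hf (D.t + (n : ℤ), D.h) = hf (D.t, D.h) := by
    intro n
    induction n with
    | zero => intro _; simp
    | succ n ih =>
      intro hn
      push_cast at hn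
      have h := hE (D.t + ((n : ℤ) + 1), D.h, false) (not_cfg_out hD hF (by
        simp only [src_mk, tgt_false, inR]; omega))
      rw [dsrc_false, dtgt_mk] at h
      rw [← ih (by omega)]
      push_cast
      rw [← h]
      congr 2
      omega
  have c1 : hf (D.r, -1) = hf (0, -1) := by
    have := bot D.r.toNat (by omega)
    rwa [show ((D.r.toNat : ℕ) : ℤ) = D.r by omega] at this
  have c2 : hf (D.r, D.h) = hf (D.r, -1) := by
    have := rgt (D.h + 1).toNat (by omega)
    rwa [show -1 + (((D.h + 1).toNat : ℕ) : ℤ) = D.h by omega] at this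
  have c3 : hf (D.r, D.h) = hf (D.t, D.h) := by
    have := top (D.r - D.t).toNat (by omega)
    rwa [show D.t + (((D.r - D.t).toNat : ℕ) : ℤ) = D.r by omega] at this
  obtain ⟨gx, gy⟩ := g
  unfold Dm.outer at hg
  simp only [Set.mem_ofPred_eq] at hg
  rcases hg with ⟨h6, h7, h8⟩ | ⟨h6, h7, h8⟩ | ⟨h6, h7, h8⟩
  · have := bot gx.toNat (by omega)
    rw [show ((gx.toNat : ℕ) : ℤ) = gx by omega] at this
    rw [h6, this, ← c1, ← c2, c3]
  · have := rgt (gy + 1).toNat (by omega)
    rw [show -1 + (((gy + 1).toNat : ℕ) : ℤ) = gy by omega] at this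
    rw [h6, this, ← c2, c3]
  · have := top (gx - D.t).toNat (by omega)
    rw [show D.t + (((gx - D.t).toNat : ℕ) : ℤ) = gx by omega] at this
    rw [h6, this]

/-- Every state between the two clusters is on the orbit. -/
theorem mem_orbit (hD : D.Ok) (hF : F ⊆ D.edges) {σ : St} (h1 : σ.1 ∈ D.clu F)
    (h2 : face σ ∈ D.dclu F) : ∃ t, D.walk F t = σ := by
  obtain ⟨hv, hf, hpot, hC, hE⟩ := pot_of_inv (D.cfg F) {τ | ∃ t, D.walk F t = τ}
    (walk_inv hD hF)
  have hreach : ∀ u w, Reach (D.cfg F) u w → hv u = hv w := by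
    intro u w h
    induction h with
    | refl => rfl
    | tail _ hs ih =>
      obtain ⟨e, he, h | h⟩ := hs
      · rw [ih, ← h.1, ← h.2]; exact hC e he
      · rw [ih, ← h.1, ← h.2]; exact (hC e he).symm
  have hdreach : ∀ f g, DReach (↑D.edges \ D.cfg F : Set Edg) f g → hf f = hf g := by
    intro f g h
    induction h with
    | refl => rfl
    | tail _ hs ih =>
      obtain ⟨e, he, h | h⟩ := hs
      · rw [ih, ← h.1, ← h.2]; exact hE e he.2
      · rw [ih, ← h.1, ← h.2]; exact (hE e he.2).symm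
  have e1 : hv σ.1 = hv (D.t, D.h) :=
    (hreach _ _ h1).symm.trans (hreach _ _ (clu_start hD F))
  have e2 : hf (face σ) = hf (D.t, D.h) := by
    obtain ⟨g, hg, hgr⟩ := h2
    rw [← hdreach _ _ hgr]
    exact outer_const hD hF hE hg
  have e3 := hpot D.start
  rw [b2_of (show D.start ∈ {τ | ∃ t, D.walk F t = τ} from ⟨0, rfl⟩)] at e3
  have e4 := hpot σ
  by_contra hcon
  rw [b2_not_of (show σ ∉ {τ | ∃ t, D.walk F t = τ} from hcon), e1, e2] at e4
  have e5 : hv D.start.1 + hf (face D.start) = hv (D.t, D.h) + hf (D.t, D.h) := rfl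
  rw [e5, e4] at e3
  exact absurd e3 (by decide)

/-- Faces outside along the wired arc. -/
def WF (D : Dm) : Set Vtx :=
  {f | (f.2 = -1 ∧ f.1 < 0) ∨ f.1 = D.l - 1 ∨ (f.2 = D.h ∧ f.1 < D.t)}

theorem not_dclu (hD : D.Ok) {f : Vtx} (hf : f ∈ WF D) : f ∉ D.dclu F := by
  intro h
  have h0 := dclu_in hD h
  obtain ⟨hl, hr, hh, h4, h5⟩ := hD
  unfold WF at hf
  unfold Dm.outer at h0
  simp only [Set.mem_ofPred_eq] at hf h0
  omega

theorem out_step (hD : D.Ok) (hF : F ⊆ D.edges) {σ : St} (h1 : inR D.l D.r 0 D.h σ.1)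
    (h2 : face σ ∈ WF D) : face (nxt (D.cfg F) σ) ∈ WF D ∨ nxt (D.cfg F) σ = D.start := by
  by_cases hc : ae σ ∈ D.cfg F
  · left
    rw [nxt_open hc, p2_face_mv]
    exact h2
  · rw [nxt_closed hc]
    obtain ⟨⟨x, y⟩, q⟩ := σ
    obtain ⟨hl, hr, hh, h4, h5⟩ := hD
    unfold inR at h1
    unfold WF at h2 ⊢
    have hw : ae ((x, y), q) ∉ D.wir := fun hh => hc (Or.inr hh)
    unfold Dm.wir at hw
    simp only [Set.mem_ofPred_eq] at h1 h2 hw ⊢
    cases q
    · simp only [ae_ne, face_ne, rt_ne, face_se] at h2 hw ⊢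
      simp at hw
      left
      omega
    · simp only [ae_nw, face_nw, rt_nw, face_ne] at h2 hw ⊢
      simp at hw
      by_cases h6 : x = D.t ∧ y = D.h
      · right
        rw [h6.1, h6.2]
        rfl
      · left
        omega
    · simp only [ae_sw, face_sw, rt_sw, face_nw] at h2 hw ⊢
      simp at hw
      left
      omega
    · simp only [ae_se, face_se, rt_se, face_sw] at h2 hw ⊢
      left
      omega

theorem stop_step (hD : D.Ok) (hF : F ⊆ D.edges) :
    face (nxt (D.cfg F) Dm.stop) ∈ WF D := by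
  have hc : ae Dm.stop ∉ D.cfg F := by
    apply not_cfg_out hD hF
    show ¬ (inR D.l D.r 0 D.h (src ((0 : ℤ), (0 : ℤ) - 1, false)) ∧ _)
    simp only [src_mk, inR]
    omega
  rw [nxt_closed hc]
  left
  show (0 : ℤ) - 1 = -1 ∧ (0 : ℤ) - 1 < 0
  omega

/-- Converse of `walk_clu`. -/
theorem visited (hD : D.Ok) (hF : F ⊆ D.edges) {σ : St} (h1 : σ.1 ∈ D.clu F)
    (h2 : face σ ∈ D.dclu F) : ∃ k ≤ D.len F, D.walk F k = σ := by
  have key : ∀ n, (∃ k ≤ D.len F, D.walk F k = D.walk F n) ∨ face (D.walk F n) ∈ WF D := by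
    intro n
    induction n with
    | zero => exact Or.inl ⟨0, Nat.zero_le _, rfl⟩
    | succ n ih =>
      rcases ih with ⟨k, hk, he⟩ | h
      · rcases Nat.lt_or_eq_of_le hk with hk' | hk'
        · left
          refine ⟨k + 1, hk', ?_⟩
          rw [clu_walk_succ, clu_walk_succ, he]
        · right
          rw [clu_walk_succ, ← he, hk', walk_len hD hF]
          exact stop_step hD hF
      · rcases out_step hD hF (walk_in hD hF n) h with h' | h'
        · right
          rw [clu_walk_succ]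
          exact h'
        · left
          refine ⟨0, Nat.zero_le _, ?_⟩
          rw [clu_walk_succ, h']
          rfl
  obtain ⟨t, rfl⟩ := mem_orbit hD hF h1 h2
  rcases key t with h | h
  · exact h
  · exact absurd h2 (not_dclu hD h)

end H443B
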