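import Pool.Agent.H443R3.BT.Link
import Pool.Agent.H934R2.Expl.Whole

/-!
The weak limits of the law of the exploration path in natural time and of the law of its trace.
-/

namespace H443B

open H974 Finset H342P H984P H984N MeasureTheory TopologicalSpace Filter Topology

theorem close_limit {Ω : Type*} [PseudoMetricSpace Ω] [MeasurableSpace Ω] [BorelSpace Ω]
    {P Q : ℕ → ProbabilityMeasure Ω} {μ : ProbabilityMeasure Ω} (hP : Tendsto P atTop (𝓝 μ))
    (h : ∀ ε : ℝ, 0 < ε → ∀ᶠ i in atTop, ∀ C : Set Ω, IsClosed C →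
      (Q i : Measure Ω) C ≤ (P i : Measure Ω) (Metric.cthickening ε C)) :
    Tendsto Q atTop (𝓝 μ) := by
  apply tendsto_of_forall_isClosed_limsup_le'
  intro C hC
  have key : ∀ ε : ℝ, 0 < ε → limsup (fun i => (Q i : Measure Ω) C) atTop ≤
      (μ : Measure Ω) (Metric.cthickening ε C) := by
    intro ε hε
    refine le_trans ?_ (ProbabilityMeasure.limsup_measure_closed_le_of_tendsto hP
      (Metric.isClosed_cthickening (δ := ε) (E := C)))
    refine limsup_le_limsup ?_ (by isBoundedDefault) (by isBoundedDefault)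
    filter_upwards [h ε hε] with i hi
    exact hi C hC
  have ht : Tendsto (fun r => (μ : Measure Ω) (Metric.cthickening r C)) (𝓝[>] 0)
      (𝓝 ((μ : Measure Ω) C)) :=
    (tendsto_measure_cthickening_of_isClosed ⟨1, one_pos, measure_ne_top _ _⟩ hC).mono_left
      nhdsWithin_le_nhds
  refine ge_of_tendsto ht ?_
  filter_upwards [self_mem_nhdsWithin] with r hr
  exact key r hr

/-- The range of the curve. -/
def rgX (p : H984N.X) : NonemptyCompacts ℂ := rg p.1

theorem rgX_cont : Continuous rgX := rg_cont.comp continuous_fst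

theorem law_close (R : H984N.Rect) {δ ε : ℝ} (hδ : 0 < δ) (hok : (R.dm δ).Ok) (hε : δ ≤ ε)
    {C : Set (NonemptyCompacts ℂ)} (hC : IsClosed C) :
    ((toE R).law hδ : Measure (NonemptyCompacts ℂ)) C ≤
      ((R.law δ).map rgX_cont.measurable.aemeasurable : Measure (NonemptyCompacts ℂ))
        (Metric.cthickening ε C) := by
  have hm : MeasurableSet (Metric.cthickening ε C) := Metric.isClosed_cthickening.measurableSet
  rw [ProbabilityMeasure.toMeasure_map, Measure.map_apply rgX_cont.measurable hm,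
    R.law_apply δ (rgX_cont.measurable hm)]
  show (toE R).lawM hδ C ≤ _
  rw [H934E.Rect.lawM_apply (toE R) hδ hC.measurableSet, edges_eq]
  apply ENNReal.ofReal_le_ofReal
  apply H934E.Q_mono
  intro F hF hFC
  show rg (R.curve δ F) ∈ Metric.cthickening ε C
  apply Metric.mem_cthickening_of_dist_le _ _ _ _ hFC
  rw [dist_comm]
  exact (trace_near R hδ hok hF).trans hε

theorem limit_trace (R : H984N.Rect) {δ : ℕ → ℝ} (hδ : ∀ i, 0 < δ i)
    (hlim : Tendsto δ atTop (𝓝 0)) {μ : ProbabilityMeasure H984N.X}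
    (hμ : Tendsto (fun i => R.law (δ i)) atTop (𝓝 μ)) :
    Tendsto (fun i => (toE R).law (hδ i)) atTop
      (𝓝 (μ.map rgX_cont.measurable.aemeasurable)) := by
  obtain ⟨κ, S, δ0, hκ, hS, hδ0, -, hsh⟩ := R.shape
  apply close_limit (P := fun i => (R.law (δ i)).map rgX_cont.measurable.aemeasurable)
  · exact ProbabilityMeasure.tendsto_map_of_tendsto_of_continuous _ _ hμ rgX_cont
  · intro ε hε
    filter_upwards [hlim.eventually_lt_const hδ0, hlim.eventually_lt_const hε] with i h1 h2
    intro C hC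
    exact law_close R (hδ i) (hsh (δ i) (hδ i) h1.le).ok h2.le hC

theorem dims (R : H984N.Rect) {δ : ℕ → ℝ} (hδ : ∀ i, 0 < δ i)
    (hlim : Tendsto δ atTop (𝓝 0)) {μ : ProbabilityMeasure H984N.X}
    (hμ : Tendsto (fun i => R.law (δ i)) atTop (𝓝 μ)) :
    ∀ᵐ p ∂(μ : Measure H984N.X), dimH (Set.range p.1 ∩ frontier R.D) = 2 / 3 ∧
      ∀ x : ℝ, 0 < x →
        dimH {y : ℝ | 0 ≤ y ∧ y < x ∧ y ≤ R.B ∧ (y : ℂ) ∈ Set.range p.1} = 2 / 3 := by
  have h := H934E.Rect.ae_frontier (toE R) hδ hlim (limit_trace R hδ hlim hμ)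
  rw [ProbabilityMeasure.toMeasure_map] at h
  exact ae_of_ae_map rgX_cont.measurable.aemeasurable h

theorem solve {x : ENNReal} (h : 7 / 4 * x = 2 / 3) : x = 8 / 21 := by
  have hx : x ≠ ⊤ := by
    rintro rfl
    rw [ENNReal.mul_top (by simp)] at h
    exact absurd h.symm (by
      rw [← ne_eq]
      exact (ENNReal.div_lt_top (by norm_num) (by norm_num)).ne)
  have h2 := congrArg ENNReal.toReal h
  rw [ENNReal.toReal_mul, ENNReal.toReal_div, ENNReal.toReal_div] at h2
  have h3 : x.toReal = 8 / 21 := by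
    norm_num at h2
    linarith
  rw [← ENNReal.ofReal_toReal hx, h3, ENNReal.ofReal_div_of_pos (by norm_num)]
  norm_num

end H443B
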