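import Pool.Agent.H443R3.BT.Fin
import Pool.Agent.H443R3.BT.FS
import Pool.Agent.H934R3.D74.Asm
import Pool.Agent.H934R3.SL.SL
import Pool.Agent.H985R3.TA.STA

/-!
Fixed sets and the limit curve.
-/

namespace H443B

open H974 Finset H342P H984P H984N MeasureTheory TopologicalSpace Filter Topology
open scoped ENNReal NNReal

/-- Points at distance at least `1 / (n + 1)` from the complement. -/
def inn (D : Set ℂ) (n : ℕ) : Set ℂ := {z | Metric.ball z (1 / ((n : ℝ) + 1)) ⊆ D}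

theorem iUnion_inn {D : Set ℂ} (hD : IsOpen D) {A : Set ℂ} (hA : A ⊆ D) :
    A = ⋃ n, (A ∩ inn D n) := by
  ext z
  rw [Set.mem_iUnion]
  constructor
  · intro hz
    obtain ⟨e, he, hb⟩ := Metric.isOpen_iff.mp hD z (hA hz)
    obtain ⟨n, hn⟩ := exists_nat_one_div_lt he
    exact ⟨n, hz, (Metric.ball_subset_ball hn.le).trans hb⟩
  · rintro ⟨n, h, -⟩
    exact h

theorem isOpen_D (R : H984N.Rect) : IsOpen R.D := by
  have h1 : IsOpen {z : ℂ | -R.A < z.re} := isOpen_lt continuous_const Complex.continuous_re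
  have h2 : IsOpen {z : ℂ | z.re < R.B} := isOpen_lt Complex.continuous_re continuous_const
  have h3 : IsOpen {z : ℂ | 0 < z.im} := isOpen_lt continuous_const Complex.continuous_im
  have h4 : IsOpen {z : ℂ | z.im < R.H} := isOpen_lt Complex.continuous_im continuous_const
  exact h1.inter (h2.inter (h3.inter h4))

/-- The law of the trace and a fixed set. -/
theorem fixed_trace (R : H934E.Rect) {δ : ℕ → ℝ} (hδ : ∀ i, 0 < δ i)
    (hlim : Tendsto δ atTop (𝓝 0)) {μ : ProbabilityMeasure (NonemptyCompacts ℂ)}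
    (hμ : Tendsto (fun i => R.law (hδ i)) atTop (𝓝 μ)) (hD : IsOpen R.D) {A : Set ℂ}
    (hA : A ⊆ R.D) :
    ∀ᵐ K : NonemptyCompacts ℂ ∂(μ : Measure (NonemptyCompacts ℂ)),
      dimH ((K : Set ℂ) ∩ A) ≤ dimH A - 1 / 4 ∧ (dimH A < 1 / 4 → (K : Set ℂ) ∩ A = ∅) := by
  obtain ⟨c, C, -, hC, hh⟩ := H934F.hit74 H985T.st_A H934SL.st_L
  have hit := (hh R δ hδ hlim μ hμ).2
  have hm : ∀ z r, MeasurableSet (FS.Hit (fun K : NonemptyCompacts ℂ => (K : Set ℂ)) z r) :=
    fun z r => (NonemptyCompacts.isClosed_inter_nonempty_of_isClosed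
      Metric.isClosed_closedBall).measurableSet
  have hb : ∀ n : ℕ, ∀ z ∈ A ∩ inn R.D n, ∀ r : ℝ, 0 < r → r ≤ 1 / ((n : ℝ) + 1) →
      (μ : Measure (NonemptyCompacts ℂ)) (FS.Hit (fun K : NonemptyCompacts ℂ => (K : Set ℂ)) z r)
        ≤ ENNReal.ofReal (C * ((n : ℝ) + 1) ^ (1/4 : ℝ)) * ENNReal.ofReal r ^ (1/4 : ℝ) := by
    intro n z hz r hr hr2
    have h1 := hit z r (1 / ((n : ℝ) + 1)) hr hr2 hz.2
    have e : C * (r / (1 / ((n : ℝ) + 1))) ^ (1/4 : ℝ) =
        C * ((n : ℝ) + 1) ^ (1/4 : ℝ) * r ^ (1/4 : ℝ) := by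
      rw [mul_assoc, ← Real.mul_rpow (by positivity) hr.le]
      congr 2
      field_simp
    rw [e] at h1
    rw [ENNReal.ofReal_rpow_of_pos hr, ← ENNReal.ofReal_mul (by positivity)]
    exact (ENNReal.le_ofReal_iff_toReal_le (measure_ne_top _ _) (by positivity)).mpr h1
  have hr0 : ∀ n : ℕ, (0 : ℝ) < 1 / ((n : ℝ) + 1) := fun n => by positivity
  have h1 : ∀ᵐ K : NonemptyCompacts ℂ ∂(μ : Measure (NonemptyCompacts ℂ)),
      ∀ (n : ℕ) (s : ℚ), 1/4 < (s : ℝ) → dimH A < ENNReal.ofReal s →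
        μH[(s : ℝ) - 1/4] ((K : Set ℂ) ∩ (A ∩ inn R.D n)) = 0 := by
    rw [ae_all_iff]
    intro n
    rw [ae_all_iff]
    intro s
    by_cases h3 : 1/4 < (s : ℝ)
    · by_cases h4 : dimH A < ENNReal.ofReal s
      · have h5 : μH[(s : ℝ)] (A ∩ inn R.D n) = 0 := by
          have h6 : dimH (A ∩ inn R.D n) < ((Real.toNNReal s : ℝ≥0) : ℝ≥0∞) :=
            (dimH_mono Set.inter_subset_left).trans_lt h4
          have h7 := hausdorffMeasure_of_dimH_lt h6
          rwa [Real.coe_toNNReal _ (by linarith)] at h7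
        filter_upwards [FS.inter_zero (hr0 n) ENNReal.ofReal_ne_top hm (hb n) h3 h5] with K hK
        intro _ _
        exact hK
      · exact Eventually.of_forall fun K _ h => absurd h h4
    · exact Eventually.of_forall fun K h => absurd h h3
  have h2 : ∀ᵐ K : NonemptyCompacts ℂ ∂(μ : Measure (NonemptyCompacts ℂ)),
      ∀ n : ℕ, dimH A < 1/4 → (K : Set ℂ) ∩ (A ∩ inn R.D n) = ∅ := by
    rw [ae_all_iff]
    intro n
    by_cases h4 : dimH A < 1/4
    · have h5 : μH[(1/4 : ℝ)] (A ∩ inn R.D n) = 0 := by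
        have e : (1/4 : ℝ≥0∞) = ((1/4 : ℝ≥0) : ℝ≥0∞) := by
          rw [ENNReal.coe_div (by norm_num)]; norm_num
        have h6 : dimH (A ∩ inn R.D n) < ((1/4 : ℝ≥0) : ℝ≥0∞) := by
          rw [← e]
          exact (dimH_mono Set.inter_subset_left).trans_lt h4
        have h7 := hausdorffMeasure_of_dimH_lt h6
        have e2 : ((1/4 : ℝ≥0) : ℝ) = 1/4 := by norm_num
        rwa [e2] at h7
      filter_upwards [FS.polar (hr0 n) ENNReal.ofReal_ne_top (hb n) h5] with K hK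
      intro _
      exact hK
    · exact Eventually.of_forall fun K h => absurd h h4
  filter_upwards [h1, h2] with K k1 k2
  have hAU := iUnion_inn hD hA
  have hpol : dimH A < 1/4 → (K : Set ℂ) ∩ A = ∅ := by
    intro h
    rw [hAU, Set.inter_iUnion]
    exact Set.iUnion_eq_empty.mpr fun n => k2 n h
  refine ⟨?_, hpol⟩
  rcases lt_or_ge (dimH A) (1/4) with h | h
  · rw [hpol h, dimH_empty]
    exact zero_le
  · apply ENNReal.le_sub_of_add_le_right (by
      exact (ENNReal.div_lt_top (by norm_num) (by norm_num)).ne)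
    apply le_of_forall_gt_imp_ge_of_dense
    intro x hx
    obtain ⟨q, -, hq1, hq2⟩ := ENNReal.lt_iff_exists_rat_btwn.mp hx
    have hq4 : 1/4 < (q : ℝ) := by
      by_contra hcon
      have h5 : ((Real.toNNReal q : ℝ≥0) : ℝ≥0∞) ≤ 1/4 := by
        show ENNReal.ofReal (q : ℝ) ≤ 1/4
        have : ENNReal.ofReal (q : ℝ) ≤ ENNReal.ofReal (1/4) :=
          ENNReal.ofReal_le_ofReal (not_lt.mp hcon)
        rwa [ENNReal.ofReal_div_of_pos (by norm_num), ENNReal.ofReal_one,
          show ENNReal.ofReal 4 = 4 by simp] at this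
      exact absurd (hq1.trans_le h5) (not_lt.mpr h)
    have hsub : dimH ((K : Set ℂ) ∩ A) ≤ ENNReal.ofReal ((q : ℝ) - 1/4) := by
      rw [hAU, Set.inter_iUnion, dimH_iUnion]
      apply iSup_le
      intro n
      have h6 := k1 n q hq4 hq1
      apply dimH_le_of_hausdorffMeasure_ne_top (d := Real.toNNReal ((q : ℝ) - 1/4))
      rw [Real.coe_toNNReal _ (by linarith), h6]
      exact ENNReal.zero_ne_top
    have e14 : (1/4 : ℝ≥0∞) = ENNReal.ofReal (1/4) := by
      rw [ENNReal.ofReal_div_of_pos (by norm_num), ENNReal.ofReal_one,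
        show ENNReal.ofReal 4 = 4 by simp]
    calc dimH ((K : Set ℂ) ∩ A) + 1/4 ≤ ENNReal.ofReal ((q : ℝ) - 1/4) + 1/4 := by gcongr
      _ = ENNReal.ofReal q := by
          rw [e14, ← ENNReal.ofReal_add (by linarith) (by norm_num)]
          congr 1
          ring
      _ ≤ x := hq2.le

end H443B
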