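import Pool.Agent.H443R3.BT.Conv
import Pool.Agent.H984R4.NP.Model
import Pool.Agent.H984R4.NP.ModelLem
import Pool.Agent.H984R4.NP.PL
import Pool.Agent.H934R2.Expl.Model

/-!
The trace of the exploration path, as a union of medial edges and as the range of the curve.
-/

namespace H443B

open H974 Finset H342P H984P H984N MeasureTheory TopologicalSpace Filter Topology

/-- The same rectangle. -/
def toE (R : H984N.Rect) : H934E.Rect := ⟨R.A, R.B, R.H, R.t, R.hA, R.hB, R.hH, R.ht1, R.ht2⟩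

theorem edges_eq (R : H984N.Rect) (δ : ℝ) : (toE R).edges δ = (R.dm δ).edges := by
  ext ⟨x, y, b⟩
  unfold H934E.Rect.edges Dm.edges
  rw [H973.mem_ES]
  unfold H934E.Rect.verts
  rw [Finset.mem_product, Finset.mem_product, Finset.mem_Icc, Finset.mem_Icc, Finset.mem_Icc,
    Finset.mem_Icc]
  have h1 : (toE R).x0 δ = (R.dm δ).l := rfl
  have h2 : (toE R).x1 δ = (R.dm δ).r := rfl
  have h3 : (toE R).y1 δ = (R.dm δ).h := rfl
  rw [h1, h2, h3]
  cases b
  · rw [mem_RE_false]
    simp only [src_mk, tgt_false]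
    omega
  · rw [mem_RE_true]
    simp only [src_mk, tgt_true]
    omega

theorem clu_eq (R : H984N.Rect) (δ : ℝ) (F : Finset Edg) :
    (toE R).clu δ F = (R.dm δ).clu F := rfl

theorem dclu_eq (R : H984N.Rect) (δ : ℝ) (F : Finset Edg) :
    (toE R).dclu δ F = (R.dm δ).dclu F := by
  unfold H934E.Rect.dclu Dm.dclu
  rw [edges_eq]
  rfl

/-- Corners. -/
def qs : Q4 → Bool × Bool
  | .ne => (true, true)
  | .nw => (false, true)
  | .sw => (false, false)
  | .se => (true, false)

def sq : Bool × Bool → Q4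
  | (true, true) => .ne
  | (false, true) => .nw
  | (false, false) => .sw
  | (true, false) => .se

theorem qs_sq (s : Bool × Bool) : qs (sq s) = s := by
  obtain ⟨a, b⟩ := s
  cases a <;> cases b <;> rfl

theorem face_eq (v : Vtx) (q : Q4) : H934E.cface v (qs q) = face (v, q) := by
  obtain ⟨x, y⟩ := v
  cases q <;> simp [H934E.cface, qs]

theorem pos_mem {δ : ℝ} (v : Vtx) (q : Q4) : pos δ (v, q) ∈ H934E.cseg δ v (qs q) := by
  unfold H934E.cseg
  refine ⟨1/2, 1/2, by norm_num, by norm_num, by norm_num, ?_⟩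
  obtain ⟨x, y⟩ := v
  cases q
  all_goals
    unfold H934E.pt pos qs
    apply Complex.ext
    · simp
      ring
    · simp
      ring

theorem cseg_near {δ : ℝ} (hδ : 0 ≤ δ) (v : Vtx) (q : Q4) {z : ℂ}
    (hz : z ∈ H934E.cseg δ v (qs q)) : dist z (pos δ (v, q)) ≤ δ := by
  unfold H934E.cseg at hz
  obtain ⟨a, b, ha, hb, hab, rfl⟩ := hz
  obtain ⟨x, y⟩ := v
  have hb' : b = 1 - a := by linarith
  subst hb'
  have key : ∀ w : ℂ, |w.re| ≤ δ / 4 → |w.im| ≤ δ / 4 → ‖w‖ ≤ δ := by
    intro w h1 h2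
    have := Complex.norm_le_abs_re_add_abs_im w
    linarith
  rw [dist_eq_norm]
  cases q
  all_goals
    unfold H934E.pt pos qs
    apply key
    · simp
      rw [abs_le]
      constructor <;> nlinarith
    · simp
      rw [abs_le]
      constructor <;> nlinarith

theorem node_mem {N : ℕ} {p : ℕ → ℂ} {k : ℕ} (hk : k ≤ N) : p k ∈ Set.range (pl N p) := by
  rcases Nat.lt_or_eq_of_le hk with h | h
  · have hN : (0 : ℝ) < N := by exact_mod_cast (by omega : 0 < N)
    have hkN : (k : ℝ) ≤ N := by exact_mod_cast hk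
    refine ⟨⟨(k : ℝ) / N, by positivity, (div_le_one hN).mpr hkN⟩, ?_⟩
    have e : ((⟨(k : ℝ) / N, by positivity, (div_le_one hN).mpr hkN⟩ : unitInterval) : ℝ) * N
        = k := by
      show (k : ℝ) / N * N = k
      field_simp
    rw [pl_seg h (by rw [e]) (by rw [e]; linarith), e]
    simp
  · subst h
    exact ⟨1, pl_one _ _⟩

/-- The range of a curve. -/
def rg (f : C(unitInterval, ℂ)) : NonemptyCompacts ℂ :=
  ⟨⟨Set.range f, isCompact_range f.continuous⟩, Set.range_nonempty _⟩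

theorem coe_rg (f : C(unitInterval, ℂ)) : (rg f : Set ℂ) = Set.range f := rfl

theorem rg_cont : Continuous rg := by
  have h : LipschitzWith 1 rg := by
    apply LipschitzWith.of_dist_le_mul
    intro f g
    rw [_root_.Metric.NonemptyCompacts.dist_eq, NNReal.coe_one, one_mul]
    apply Metric.hausdorffDist_le_of_mem_dist dist_nonneg
    · rintro _ ⟨s, rfl⟩
      exact ⟨g s, ⟨s, rfl⟩, ContinuousMap.dist_apply_le_dist s⟩
    · rintro _ ⟨s, rfl⟩
      refine ⟨f s, ⟨s, rfl⟩, ?_⟩
      rw [dist_comm]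
      exact ContinuousMap.dist_apply_le_dist s
  exact h.continuous

/-- The two descriptions of the trace agree up to `δ`. -/
theorem trace_near (R : H984N.Rect) {δ : ℝ} (hδ : 0 < δ) (hok : (R.dm δ).Ok) {F : Finset Edg}
    (hF : F ⊆ (R.dm δ).edges) : dist ((toE R).trace hδ F) (rg (R.curve δ F)) ≤ δ := by
  rw [_root_.Metric.NonemptyCompacts.dist_eq, H934E.Rect.coe_trace, coe_rg]
  apply Metric.hausdorffDist_le_of_mem_dist hδ.le
  · intro z hz
    unfold H934E.Rect.path at hz
    rw [Set.mem_iUnion₂] at hz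
    obtain ⟨⟨v, s⟩, ⟨h1, h2⟩, h3⟩ := hz
    rw [clu_eq] at h1
    rw [dclu_eq] at h2
    have e : qs (sq s) = s := qs_sq s
    rw [← e] at h2 h3
    change H934E.cface v (qs (sq s)) ∈ _ at h2
    rw [face_eq] at h2
    obtain ⟨k, hk, hw⟩ := visited hok hF (σ := (v, sq s)) h1 h2
    refine ⟨pos δ (v, sq s), ?_, cseg_near hδ.le v (sq s) h3⟩
    rw [← hw]
    exact node_mem (p := fun k => pos δ ((R.dm δ).walk F k)) hk
  · rintro _ ⟨s, rfl⟩
    have hst : ∀ k < (R.dm δ).len F, dist (pos δ ((R.dm δ).walk F k))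
        (pos δ ((R.dm δ).walk F (k + 1))) ≤ δ / 2 := by
      intro k _
      rw [clu_walk_succ]
      exact pos_nxt hδ.le _ _
    obtain ⟨k, hk, hd⟩ := pl_close (by positivity : (0:ℝ) ≤ δ / 2) hst s
    refine ⟨pos δ ((R.dm δ).walk F k), ?_, ?_⟩
    · obtain ⟨h1, h2⟩ := walk_clu hok hF hk
      generalize (R.dm δ).walk F k = σ at h1 h2
      obtain ⟨v, q⟩ := σ
      unfold H934E.Rect.path
      rw [Set.mem_iUnion₂]
      refine ⟨(v, qs q), ⟨?_, ?_⟩, pos_mem v q⟩
      · rw [clu_eq]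
        exact h1
      · rw [dclu_eq]
        show H934E.cface v (qs q) ∈ _
        rw [face_eq]
        exact h2
    · exact hd.trans (by linarith)

end H443B
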